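import Pool.Agent.H73.CBE.Stmts

/-! Board CBE, row UKB. -/

set_option autoImplicit false

open Set Filter Topology

namespace Pool.CBE

theorem UKB_thm (h1 : ITRStmt) (h2 : CHIStmt) (h3 : LGHStmt) (h4 : UBDStmt) : UKBStmt := by
  intro n f d η C θ a hf
  have hCpos : 0 < C := lt_of_lt_of_le hf.hη hf.hC
  have h2d : (1 : ℝ) ≤ 2 ^ d := one_le_pow₀ (by norm_num)
  obtain ⟨L1, hL1, H1⟩ := h3 n 1 2 one_pos (by norm_num)
  obtain ⟨L2, hL2, H2⟩ := h3 n η (C * 2 ^ d) hf.hη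
    (le_trans hf.hC (le_mul_of_one_le_right hCpos.le h2d))
  refine ⟨64 * (L2 + d * L1), by positivity, ?_⟩
  intro k z₀ hz₀
  have hθk : 1 ≤ θ ^ k := one_le_pow₀ hf.hθ
  have hθk0 : 0 < θ ^ k := lt_of_lt_of_le one_pos hθk
  obtain ⟨hcd, hne, -, -⟩ := h1 n f d η C θ a hf k
  obtain ⟨r, hr⟩ : ∃ r : ℝ, r = (1 / 8) / θ ^ k := ⟨_, rfl⟩
  have hr0 : 0 < r := by rw [hr]; positivity
  have hr2 : (1 / 16) / θ ^ k = r / 2 := by rw [hr]; ring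
  have hz0ne : z₀ ≠ 0 := by
    rintro rfl
    norm_num at hz₀
  obtain ⟨e, he⟩ : ∃ e : E n, e = (‖f^[k] z₀‖⁻¹ : ℝ) • f^[k] z₀ := ⟨_, rfl⟩
  have hen : ‖e‖ = 1 := by
    rw [he, norm_smul, norm_inv, norm_norm]
    exact inv_mul_cancel₀ (norm_ne_zero_iff.2 (hne z₀ hz0ne))
  obtain ⟨χ, hχ⟩ : ∃ χ : E n → E n, χ = fun z => (inner ℂ e (f^[k] z) : ℂ)⁻¹ • f^[k] z := ⟨_, rfl⟩
  have hin : ∀ z ∈ Metric.ball z₀ r, z ≠ 0 ∧ ‖f^[k] z‖ ≤ 2 * ‖(inner ℂ e (f^[k] z) : ℂ)‖ := by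
    intro z hz
    rw [he]
    refine h2 n f d η C θ a hf k z₀ z hz₀ ?_
    rw [← dist_eq_norm, ← hr]
    exact (Metric.mem_ball.1 hz).le
  have hin0 : ∀ z ∈ Metric.ball z₀ r, (inner ℂ e (f^[k] z) : ℂ) ≠ 0 := by
    intro z hz h0
    obtain ⟨hz1, hz2⟩ := hin z hz
    rw [h0, norm_zero, mul_zero] at hz2
    exact hne z hz1 (norm_le_zero_iff.1 hz2)
  have hχn : ∀ z ∈ Metric.ball z₀ r, 1 ≤ ‖χ z‖ ∧ ‖χ z‖ ≤ 2 := by
    intro z hz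
    have hpos : 0 < ‖(inner ℂ e (f^[k] z) : ℂ)‖ := norm_pos_iff.2 (hin0 z hz)
    have heq : ‖χ z‖ = ‖f^[k] z‖ / ‖(inner ℂ e (f^[k] z) : ℂ)‖ := by
      rw [hχ]
      show ‖(inner ℂ e (f^[k] z) : ℂ)⁻¹ • f^[k] z‖ = _
      rw [norm_smul, norm_inv, div_eq_inv_mul]
    rw [heq]
    constructor
    · rw [le_div_iff₀ hpos, one_mul]
      calc ‖(inner ℂ e (f^[k] z) : ℂ)‖ ≤ ‖e‖ * ‖f^[k] z‖ := norm_inner_le_norm _ _
        _ = ‖f^[k] z‖ := by rw [hen, one_mul]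
    · rw [div_le_iff₀ hpos]; exact (hin z hz).2
  have hinC : ContDiff ℂ 2 (fun z => (inner ℂ e (f^[k] z) : ℂ)) :=
    (innerSL ℂ e).contDiff.comp hcd
  have hχc : ContDiffOn ℂ 2 χ (Metric.ball z₀ r) := by
    rw [hχ]
    exact (hinC.contDiffOn.inv hin0).smul hcd.contDiffOn
  have hfχc : ContDiffOn ℂ 2 (f ∘ χ) (Metric.ball z₀ r) := hf.cd.comp_contDiffOn hχc
  have hfχn : ∀ z ∈ Metric.ball z₀ r, η ≤ ‖(f ∘ χ) z‖ ∧ ‖(f ∘ χ) z‖ ≤ C * 2 ^ d := by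
    intro z hz
    obtain ⟨ha, hb⟩ := hχn z hz
    constructor
    · refine le_trans ?_ (hf.lo (χ z))
      exact le_mul_of_one_le_right hf.hη.le (one_le_pow₀ ha)
    · refine le_trans (hf.up (χ z)) ?_
      exact mul_le_mul_of_nonneg_left (pow_le_pow_left₀ (norm_nonneg _) hb d) hCpos.le
  obtain ⟨A1, B1⟩ := H1 χ z₀ r hr0 hχc hχn
  obtain ⟨A2, B2⟩ := H2 (f ∘ χ) z₀ r hr0 hfχc hfχn
  have hu : ∀ z ∈ Metric.ball z₀ r, u f d (f^[k] z) =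
      Real.log (‖(f ∘ χ) z‖ ^ 2) - d * Real.log (‖χ z‖ ^ 2) := by
    intro z hz
    have := (h4 n f d η C θ a hf).2 (inner ℂ e (f^[k] z) : ℂ)⁻¹ (f^[k] z) (inv_ne_zero (hin0 z hz))
    rw [← this, hχ]
    rfl
  have hsub : ∀ z ∈ Metric.ball z₀ (r / 2), z ∈ Metric.ball z₀ r := fun z hz =>
    Metric.ball_subset_ball (by linarith) hz
  have hloc : ∀ z ∈ Metric.ball z₀ (r / 2), (fun y => u f d (f^[k] y)) =ᶠ[𝓝 z]
      fun y => Real.log (‖(f ∘ χ) y‖ ^ 2) - d * Real.log (‖χ y‖ ^ 2) := by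
    intro z hz
    filter_upwards [Metric.isOpen_ball.mem_nhds (hsub z hz)] with y hy
    exact hu y hy
  have hder : ∀ z ∈ Metric.ball z₀ (r / 2),
      HasFDerivAt (fun y => u f d (f^[k] y))
        (fderiv ℝ (fun y => Real.log (‖(f ∘ χ) y‖ ^ 2)) z -
          (d : ℝ) • fderiv ℝ (fun y => Real.log (‖χ y‖ ^ 2)) z) z := by
    intro z hz
    have h1' := (A1 z hz).1.hasFDerivAt.const_mul (d : ℝ)
    have h2' := (A2 z hz).1.hasFDerivAt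
    exact (h2'.sub h1').congr_of_eventuallyEq (hloc z hz)
  rw [hr2]
  have hθr : θ ^ k = 1 / (8 * r) := by rw [hr]; field_simp
  have hθ2 : θ ^ (2 * k) = 1 / (64 * r ^ 2) := by
    rw [mul_comm, pow_mul, hθr]; field_simp; norm_num
  constructor
  · intro z hz
    refine ⟨(hder z hz).differentiableAt, ?_⟩
    rw [(hder z hz).fderiv]
    calc _ ≤ ‖fderiv ℝ (fun y => Real.log (‖(f ∘ χ) y‖ ^ 2)) z‖ +
          ‖(d : ℝ) • fderiv ℝ (fun y => Real.log (‖χ y‖ ^ 2)) z‖ := norm_sub_le _ _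
      _ ≤ L2 / r + d * (L1 / r) := by
          rw [norm_smul, Real.norm_natCast]
          exact add_le_add (A2 z hz).2 (mul_le_mul_of_nonneg_left (A1 z hz).2 (Nat.cast_nonneg d))
      _ = 8 * (L2 + d * L1) * θ ^ k := by rw [hθr]; field_simp
      _ ≤ 64 * (L2 + d * L1) * θ ^ k := by
          have : 0 ≤ (L2 + d * L1) * θ ^ k := by positivity
          nlinarith
  · intro z hz z' hz'
    rw [(hder z hz).fderiv, (hder z' hz').fderiv]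
    have hsplit : (fderiv ℝ (fun y => Real.log (‖(f ∘ χ) y‖ ^ 2)) z -
          (d : ℝ) • fderiv ℝ (fun y => Real.log (‖χ y‖ ^ 2)) z) -
        (fderiv ℝ (fun y => Real.log (‖(f ∘ χ) y‖ ^ 2)) z' -
          (d : ℝ) • fderiv ℝ (fun y => Real.log (‖χ y‖ ^ 2)) z') =
        (fderiv ℝ (fun y => Real.log (‖(f ∘ χ) y‖ ^ 2)) z -
          fderiv ℝ (fun y => Real.log (‖(f ∘ χ) y‖ ^ 2)) z') -
        (d : ℝ) • (fderiv ℝ (fun y => Real.log (‖χ y‖ ^ 2)) z -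
          fderiv ℝ (fun y => Real.log (‖χ y‖ ^ 2)) z') := by
      rw [smul_sub]; abel
    rw [hsplit]
    calc _ ≤ ‖fderiv ℝ (fun y => Real.log (‖(f ∘ χ) y‖ ^ 2)) z -
          fderiv ℝ (fun y => Real.log (‖(f ∘ χ) y‖ ^ 2)) z'‖ +
          ‖(d : ℝ) • (fderiv ℝ (fun y => Real.log (‖χ y‖ ^ 2)) z -
          fderiv ℝ (fun y => Real.log (‖χ y‖ ^ 2)) z')‖ := norm_sub_le _ _
      _ ≤ L2 / r ^ 2 * ‖z - z'‖ + d * (L1 / r ^ 2 * ‖z - z'‖) := by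
          rw [norm_smul, Real.norm_natCast]
          exact add_le_add (B2 z hz z' hz')
            (mul_le_mul_of_nonneg_left (B1 z hz z' hz') (Nat.cast_nonneg d))
      _ = 64 * (L2 + d * L1) * θ ^ (2 * k) * ‖z - z'‖ := by
          rw [hθ2]; field_simp

end Pool.CBE
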